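import Pool.Agent.Helper26K1.WD.Main

/-!
There is one subset `E` of the circle of packing dimension zero (so of Hausdorff dimension zero)
such that, for all coprime `p, q ≥ 2`, the orbit of every point outside `E` is as close to being
equidistributed as desired in long windows `{n = p ^ a * q ^ b : X ≤ n < H X}` with `X` arbitrarily
large. All the points which are generic along windows for a measure other than Lebesgue measure
lie in `E`.
-/

set_option autoImplicit false

open MeasureTheory Filter Topology

namespace Pool.Agent.Helper26K1.Hold.WindowsDimensionZero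

open Classical in
/-- The window of the numbers `n = p ^ a * q ^ b` with `X ≤ n < Y`. -/
noncomputable def window (p q : ℕ) (X Y : ℝ) : Finset ℕ :=
  (Finset.range ⌈Y⌉₊).filter fun n => (∃ a b : ℕ, n = p ^ a * q ^ b) ∧ X ≤ n

open Classical in
/-- The number of the `n` in the window such that `n x` lies in the closed arc of centre `c` and
radius `r`. -/
noncomputable def visits (p q : ℕ) (X Y : ℝ) (x c : UnitAddCircle) (r : ℝ) : ℕ :=
  ((window p q X Y).filter fun n => ‖n • x - c‖ ≤ r).card

/-- The point `x` is generic for the measure `μ` along windows: for every continuous function the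
averages over the windows `X ≤ n < H X` are close to the integral, for large `H` and for
`X ≥ X₀(H)`. -/
def WindowGeneric (p q : ℕ) (μ : Measure UnitAddCircle) (x : UnitAddCircle) : Prop :=
  ∀ f : UnitAddCircle → ℝ, Continuous f → ∀ ε : ℝ, 0 < ε → ∃ H₀ : ℕ, ∀ H : ℕ, H₀ ≤ H →
    ∃ X₀ : ℝ, ∀ X : ℝ, X₀ ≤ X →
      |∑ n ∈ window p q X (H * X), f (n • x) - (∫ y, f y ∂μ) * (window p q X (H * X)).card| ≤
        ε * (window p q X (H * X)).card

/-- The covering numbers of `A` at scale `ρ` are at most a constant times `ρ ^ (-s)`, so the upper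
box dimension of `A` is at most `s`. -/
def Covered (A : Set UnitAddCircle) (s : ℝ) : Prop :=
  ∃ C : ℝ, 0 < C ∧ ∀ ρ : ℝ, 0 < ρ → ρ ≤ 1 → ∃ F : Finset UnitAddCircle,
    (F.card : ℝ) ≤ C * ρ ^ (-s) ∧ ∀ x ∈ A, ∃ z ∈ F, ‖x - z‖ ≤ ρ

/-- **Equidistribution in long windows outside a set of dimension zero.** There is a set `E` of
Hausdorff dimension zero, and even of packing dimension zero (for every `s > 0` it is covered by
countably many sets of upper box dimension at most `s`), such that for all coprime `p, q ≥ 2`:
(a) for every point outside `E`, every `ε > 0` and every large ratio `H` there are windows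
`X ≤ n < H X` with `X` arbitrarily large in which every arc is visited with frequency equal to its
length up to `ε`;
(b) every point which is window-generic for a Borel probability measure other than Lebesgue measure
lies in `E`. -/
theorem result : ∃ E : Set UnitAddCircle, dimH E = 0 ∧
    (∀ s : ℝ, 0 < s → ∃ A : ℕ → Set UnitAddCircle, E ⊆ ⋃ n, A n ∧ ∀ n, Covered (A n) s) ∧
    ∀ p q : ℕ, 2 ≤ p → 2 ≤ q → Nat.Coprime p q →
      (∀ x : UnitAddCircle, x ∉ E → ∀ ε : ℝ, 0 < ε → ∃ H₀ : ℕ, ∀ H : ℕ, H₀ ≤ H →
        ∀ X₀ : ℝ, ∃ X : ℝ, X₀ ≤ X ∧ (window p q X (H * X)).Nonempty ∧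
          ∀ c : UnitAddCircle, ∀ r : ℝ, 0 ≤ r → r ≤ 1 / 2 →
            |(visits p q X (H * X) x c r : ℝ) - 2 * r * (window p q X (H * X)).card| ≤
              ε * (window p q X (H * X)).card) ∧
      (∀ μ : Measure UnitAddCircle, IsProbabilityMeasure μ → μ ≠ volume →
        ∀ x : UnitAddCircle, WindowGeneric p q μ x → x ∈ E) :=
  ⟨Pool.Agent.Helper26K1.WD.EE, Pool.Agent.Helper26K1.WD.EE_dim,
    fun _ hs => Pool.Agent.Helper26K1.WD.EE_cover hs, fun _ _ hp hq hpq =>
    ⟨fun _ hx _ hε => Pool.Agent.Helper26K1.WD.equi hp hq hpq hx hε,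
      fun _ _ hμ _ hx => Pool.Agent.Helper26K1.WD.generic_mem hp hq hpq hμ hx⟩⟩

end Pool.Agent.Helper26K1.Hold.WindowsDimensionZero
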